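import Pool.Agent.Q198.C0

set_option autoImplicit false

/-!
# MP_2c23da_an, Q1: the weakly compact perturbation index can exceed both slice thickness indices
-/

namespace Pool.Agent.Results.MP_2c23da_an.PerturbationIndexLarger

open Filter Topology ZeroAtInfty Pool.Agent.Q198

section defs

variable (X : Type*) [NormedAddCommGroup X] [NormedSpace ℝ X]

/-- The slice index of thickness of `X`. -/
noncomputable def sliceIndex : ℝ :=
  sInf {r : ℝ | 0 < r ∧ ∃ x : X, ‖x‖ = 1 ∧ ∃ (f : X →L[ℝ] ℝ) (α : ℝ), ‖f‖ = 1 ∧ 0 < α ∧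
    {y : X | ‖y‖ ≤ 1 ∧ 1 - α < f y} ⊆ Metric.closedBall x r}

/-- The weak-star slice index of thickness of the dual of `X`. -/
noncomputable def wstarSliceIndex : ℝ :=
  sInf {r : ℝ | 0 < r ∧ ∃ f : X →L[ℝ] ℝ, ‖f‖ = 1 ∧ ∃ (x : X) (α : ℝ), ‖x‖ = 1 ∧ 0 < α ∧
    {g : X →L[ℝ] ℝ | ‖g‖ ≤ 1 ∧ 1 - α < g x} ⊆ Metric.closedBall f r}

/-- `T` is weakly compact: the weak closure of the image of the unit ball is weakly compact. -/
def WeaklyCompact {X : Type*} [NormedAddCommGroup X] [NormedSpace ℝ X] (T : X →L[ℝ] X) : Prop :=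
  IsCompact (closure ((fun y : X => toWeakSpace ℝ X (T y)) '' Metric.closedBall 0 1))

/-- `W(X) = inf ‖T + I‖` over weakly compact `T` of norm one. -/
noncomputable def pertIndex : ℝ :=
  sInf {r : ℝ | ∃ T : X →L[ℝ] X, ‖T‖ = 1 ∧ WeaklyCompact T ∧
    r = ‖T + ContinuousLinearMap.id ℝ X‖}

end defs

/-- The space `ℝ ⊕_2 c_0`. -/
abbrev Z : Type := WithLp 2 (ℝ × C₀(ℕ, ℝ))

/-- The pair `(a, z)`. -/
noncomputable def pr (a : ℝ) (z : C₀(ℕ, ℝ)) : Z := WithLp.toLp 2 (a, z)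

lemma norm_sq (x : Z) : ‖x‖ ^ 2 = x.fst ^ 2 + ‖x.snd‖ ^ 2 := by
  rw [WithLp.prod_norm_sq_eq_of_L2, Real.norm_eq_abs, sq_abs]

/-- The first coordinate functional. -/
noncomputable def f₀ : Z →L[ℝ] ℝ := WithLp.fstL 2 ℝ ℝ C₀(ℕ, ℝ)

lemma f₀_apply (x : Z) : f₀ x = x.fst := rfl

/-- The vector `(1,0)`. -/
noncomputable def x₀ : Z := pr 1 0

lemma norm_x₀ : ‖x₀‖ = 1 := by
  have h : ‖x₀‖ ^ 2 = 1 := by
    rw [norm_sq]
    change (1 : ℝ) ^ 2 + ‖(0 : C₀(ℕ, ℝ))‖ ^ 2 = 1
    rw [norm_zero]; norm_num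
  exact (pow_eq_one_iff_of_nonneg (norm_nonneg _) two_ne_zero).1 h

lemma abs_fst_le (x : Z) : |x.fst| ≤ ‖x‖ := by
  have h1 := norm_sq x
  have h2 : |x.fst| ^ 2 ≤ ‖x‖ ^ 2 := by
    rw [h1, sq_abs]; have := sq_nonneg ‖x.snd‖; linarith
  exact (pow_le_pow_iff_left₀ (abs_nonneg _) (norm_nonneg _) two_ne_zero).1 h2

lemma norm_snd_le' (x : Z) : ‖x.snd‖ ≤ ‖x‖ := by
  have h1 := norm_sq x
  have h2 : ‖x.snd‖ ^ 2 ≤ ‖x‖ ^ 2 := by
    rw [h1]; have := sq_nonneg x.fst; linarith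
  exact (pow_le_pow_iff_left₀ (norm_nonneg _) (norm_nonneg _) two_ne_zero).1 h2

lemma norm_f₀ : ‖f₀‖ = 1 := by
  apply le_antisymm
  · refine ContinuousLinearMap.opNorm_le_bound _ zero_le_one fun x => ?_
    rw [one_mul]; exact abs_fst_le x
  · have := f₀.le_opNorm x₀
    rw [norm_x₀, mul_one] at this
    have h : f₀ x₀ = 1 := rfl
    rwa [h, norm_one] at this

lemma sliceIndex_le (r : ℝ) (hr : 0 < r) : sliceIndex Z ≤ r := by
  apply csInf_le
  · exact ⟨0, fun s hs => hs.1.le⟩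
  · refine ⟨hr, x₀, norm_x₀, f₀, r ^ 2 / 2, norm_f₀, by positivity, ?_⟩
    rintro y ⟨hy, hy2⟩
    rw [mem_closedBall_iff_norm]
    rw [f₀_apply] at hy2
    have h1 : ‖y - x₀‖ ^ 2 ≤ r ^ 2 := by
      rw [norm_sq, WithLp.sub_fst, WithLp.sub_snd]
      have h2 : x₀.fst = 1 := rfl
      have h3 : x₀.snd = 0 := rfl
      rw [h2, h3, sub_zero]
      have h4 : y.fst ^ 2 + ‖y.snd‖ ^ 2 ≤ 1 := by
        rw [← norm_sq]; exact pow_le_one₀ (norm_nonneg _) hy
      nlinarith
    exact (pow_le_pow_iff_left₀ (norm_nonneg _) hr.le two_ne_zero).1 h1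

lemma wstarSliceIndex_le (r : ℝ) (hr : 0 < r) (hr1 : r ≤ 1) : wstarSliceIndex Z ≤ r := by
  apply csInf_le
  · exact ⟨0, fun s hs => hs.1.le⟩
  · refine ⟨hr, f₀, norm_f₀, x₀, r ^ 2 / 8, norm_x₀, by positivity, ?_⟩
    rintro g ⟨hg, hg2⟩
    rw [mem_closedBall_iff_norm]
    refine ContinuousLinearMap.opNorm_le_bound _ hr.le fun y => ?_
    set a : ℝ := g x₀ with ha
    have ha1 : a ≤ 1 := by
      have := g.le_opNorm x₀
      rw [norm_x₀, mul_one] at this
      exact (Real.le_norm_self _).trans (this.trans hg)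
    set b : ℝ := g (pr 0 y.snd) with hb
    have hdec : g y = y.fst * a + b := by
      have e : y = y.fst • x₀ + pr 0 y.snd := by
        apply (WithLp.equiv 2 _).injective
        ext
        · change y.fst = y.fst * 1 + 0; ring
        · change _ = (y.fst • (0 : C₀(ℕ, ℝ)) + y.snd) _
          rw [smul_zero, zero_add]; rfl
      conv_lhs => rw [e]
      rw [map_add, map_smul, smul_eq_mul]
    -- estimate of `b`
    have hb2 : b ^ 2 ≤ (r / 2 * ‖y.snd‖) ^ 2 := by
      have hr8 : 1 - a ^ 2 ≤ r ^ 2 / 4 := by nlinarith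
      by_cases hz : ‖y.snd‖ = 0
      · have h0 : y.snd = 0 := norm_eq_zero.1 hz
        have : b = 0 := by
          rw [hb, h0]
          have : pr 0 0 = 0 := rfl
          rw [this, map_zero]
        rw [this]; nlinarith [sq_nonneg (r / 2 * ‖y.snd‖)]
      · have hpos : 0 < ‖y.snd‖ := lt_of_le_of_ne (norm_nonneg _) (Ne.symm hz)
        set c : ℝ := b / ‖y.snd‖ ^ 2 with hc
        -- test vector `(a, c z)`
        have h1 : g (a • x₀ + c • pr 0 y.snd) = a ^ 2 + c * b := by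
          rw [map_add, map_smul, map_smul, smul_eq_mul, smul_eq_mul]; ring
        have h2 : ‖a • x₀ + c • pr 0 y.snd‖ ^ 2 = a ^ 2 + c * b := by
          rw [norm_sq]
          have e1 : (a • x₀ + c • pr 0 y.snd).fst = a := by
            change a * 1 + c * 0 = a; ring
          have e2 : (a • x₀ + c • pr 0 y.snd).snd = c • y.snd := by
            change a • (0 : C₀(ℕ, ℝ)) + c • y.snd = _
            rw [smul_zero, zero_add]
          rw [e1, e2, norm_smul, mul_pow, Real.norm_eq_abs, sq_abs, hc]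
          field_simp
        have h3 : a ^ 2 + c * b ≤ ‖a • x₀ + c • pr 0 y.snd‖ := by
          rw [← h1]
          refine (Real.le_norm_self _).trans ((g.le_opNorm _).trans ?_)
          nlinarith [norm_nonneg (a • x₀ + c • pr 0 y.snd)]
        have h4 : ‖a • x₀ + c • pr 0 y.snd‖ ≤ 1 := by
          by_contra hcon
          push Not at hcon
          rw [← h2] at h3
          nlinarith
        have h5 : a ^ 2 + c * b ≤ 1 := h3.trans h4
        have h6 : c * b = b ^ 2 / ‖y.snd‖ ^ 2 := by rw [hc]; ring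
        rw [h6] at h5
        have h7 : b ^ 2 / ‖y.snd‖ ^ 2 ≤ r ^ 2 / 4 := by linarith
        rw [div_le_iff₀ (by positivity)] at h7
        nlinarith
    have hb3 : |b| ≤ r / 2 * ‖y.snd‖ := abs_le_of_sq_le_sq' hb2 (by positivity) |> abs_le.2
    have h8 : (g - f₀) y = y.fst * (a - 1) + b := by
      rw [sub_apply, hdec, f₀_apply]; ring
    rw [h8, Real.norm_eq_abs]
    refine (abs_add_le _ _).trans ?_
    rw [abs_mul]
    have h9 := abs_fst_le y
    have h10 : ‖y.snd‖ ≤ ‖y‖ := norm_snd_le' y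
    have h11 : |a - 1| ≤ r / 2 := by
      rw [abs_le]; constructor <;> nlinarith
    have h12 : |y.fst| * |a - 1| ≤ ‖y‖ * (r / 2) :=
      mul_le_mul h9 h11 (abs_nonneg _) (norm_nonneg _)
    nlinarith

/-- The summing vectors `(0, 1_{[0,n)})`. -/
noncomputable def s (n : ℕ) : Z := pr 0 (C0.fin (Finset.range n) fun _ => 1)

lemma norm_s_le (n : ℕ) : ‖s n‖ ≤ 1 := by
  have h : ‖s n‖ ^ 2 ≤ 1 := by
    rw [norm_sq]
    change (0 : ℝ) ^ 2 + ‖C0.fin (Finset.range n) fun _ => 1‖ ^ 2 ≤ 1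
    have : ‖C0.fin (Finset.range n) fun _ => (1 : ℝ)‖ ≤ 1 := by
      refine C0.norm_le _ zero_le_one fun m => ?_
      rw [C0.fin_apply]; split_ifs <;> simp
    have := pow_le_one₀ (n := 2) (norm_nonneg _) this
    linarith
  exact (pow_le_one_iff_of_nonneg (norm_nonneg _) two_ne_zero).1 h

/-- No weakly compact operator on `Z` is invertible. -/
lemma not_invertible (T S : Z →L[ℝ] Z) (hT : WeaklyCompact T) (hTS : ∀ x, T (S x) = x) : False := by
  set C : ℝ := ‖S‖ + 1 with hC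
  have hC0 : 0 < C := by positivity
  let p : ℕ → WeakSpace ℝ Z := fun n => toWeakSpace ℝ Z (C⁻¹ • s n)
  have hp : ∀ n, p n ∈ closure ((fun y : Z => toWeakSpace ℝ Z (T y)) '' Metric.closedBall 0 1) := by
    intro n
    apply subset_closure
    refine ⟨C⁻¹ • S (s n), ?_, ?_⟩
    · rw [mem_closedBall_zero_iff, norm_smul, norm_inv, Real.norm_of_nonneg hC0.le,
        inv_mul_le_one₀ hC0]
      refine (S.le_opNorm _).trans ?_
      have := norm_s_le n
      nlinarith [norm_nonneg S]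
    · simp only [p]
      rw [map_smul, hTS]
  obtain ⟨w, -, hw⟩ := hT.exists_mapClusterPt (u := p) (f := atTop)
    (tendsto_principal.2 (Eventually.of_forall hp))
  set w' : Z := (toWeakSpace ℝ Z).symm w with hw'
  have hcoord : ∀ k, w'.snd k = C⁻¹ := by
    intro k
    let φ : Z →L[ℝ] ℝ := (C0.ev k).comp (WithLp.sndL 2 ℝ ℝ C₀(ℕ, ℝ))
    have hφ : ∀ x : Z, φ x = x.snd k := fun x => rfl
    have hcont : Continuous fun y : WeakSpace ℝ Z => φ ((toWeakSpace ℝ Z).symm y) :=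
      WeakBilin.eval_continuous (topDualPairing ℝ Z).flip φ
    by_contra hne
    have hopen : {y : WeakSpace ℝ Z | φ ((toWeakSpace ℝ Z).symm y) ≠ C⁻¹} ∈ 𝓝 w := by
      apply (isOpen_ne_fun hcont continuous_const).mem_nhds
      exact hne
    have hfreq := hw.frequently hopen
    have hev : ∀ᶠ n in atTop, φ ((toWeakSpace ℝ Z).symm (p n)) = C⁻¹ := by
      filter_upwards [eventually_gt_atTop k] with n hn
      simp only [p]
      rw [LinearEquiv.symm_apply_apply, map_smul, hφ]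
      change C⁻¹ * (C0.fin (Finset.range n) (fun _ => (1 : ℝ)) k) = C⁻¹
      rw [C0.fin_apply, if_pos (Finset.mem_range.2 hn), mul_one]
    obtain ⟨n, hn1, hn2⟩ := (hfreq.and_eventually hev).exists
    exact hn1 hn2
  have hlim := C0.tendsto w'.snd
  have hlim2 : Tendsto (fun n => w'.snd n) atTop (𝓝 C⁻¹) := by
    refine tendsto_const_nhds.congr fun n => (hcoord n).symm
  have := tendsto_nhds_unique hlim hlim2
  exact (inv_pos.2 hC0).ne this

lemma one_le_pert : 1 ≤ pertIndex Z := by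
  apply le_csInf
  · -- the rank one projection
    let T : Z →L[ℝ] Z := f₀.smulRight x₀
    have hTa : ∀ y, T y = f₀ y • x₀ := fun y => rfl
    refine ⟨_, T, ?_, ?_, rfl⟩
    · rw [ContinuousLinearMap.norm_smulRight_apply, norm_f₀, norm_x₀, one_mul]
    · let K : Set (WeakSpace ℝ Z) := (fun c : ℝ => c • toWeakSpace ℝ Z x₀) '' Set.Icc (-1) 1
      have hK : IsCompact K := isCompact_Icc.image (by fun_prop)
      refine hK.closure_of_subset ?_
      rintro _ ⟨y, hy, rfl⟩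
      refine ⟨f₀ y, ?_, ?_⟩
      · rw [mem_closedBall_zero_iff] at hy
        have h1 := (abs_fst_le y).trans hy
        exact abs_le.1 h1
      · simp only [hTa, map_smul]
  · rintro r ⟨T, -, hT, rfl⟩
    by_contra hcon
    push Not at hcon
    -- `-T = 1 - (1 + T)` is invertible
    let u : (Z →L[ℝ] Z)ˣ := Units.oneSub (T + ContinuousLinearMap.id ℝ Z) hcon
    have hu : (u : Z →L[ℝ] Z) = -T := by
      change (1 : Z →L[ℝ] Z) - (T + ContinuousLinearMap.id ℝ Z) = -T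
      have : (ContinuousLinearMap.id ℝ Z) = (1 : Z →L[ℝ] Z) := rfl
      rw [this]; abel
    let S : Z →L[ℝ] Z := -((u⁻¹ : (Z →L[ℝ] Z)ˣ) : Z →L[ℝ] Z)
    refine not_invertible T S hT fun x => ?_
    have h1 : (u : Z →L[ℝ] Z) * ((u⁻¹ : (Z →L[ℝ] Z)ˣ) : Z →L[ℝ] Z) = 1 := u.mul_inv
    have h2 := congrArg (fun A : Z →L[ℝ] Z => A x) h1
    rw [hu] at h2
    have h3 : (-T * ((u⁻¹ : (Z →L[ℝ] Z)ˣ) : Z →L[ℝ] Z)) x
        = -(T (((u⁻¹ : (Z →L[ℝ] Z)ˣ) : Z →L[ℝ] Z) x)) := rfl
    rw [h3] at h2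
    change T (-(((u⁻¹ : (Z →L[ℝ] Z)ˣ) : Z →L[ℝ] Z) x)) = x
    rw [map_neg]
    exact h2

/-- **Q1 is false**: for `X = ℝ ⊕_2 c_0` both slice indices vanish while `W(X) ≥ 1`. -/
theorem result : ∃ (X : Type) (_ : NormedAddCommGroup X) (_ : NormedSpace ℝ X) (_ : CompleteSpace X),
    sliceIndex X = 0 ∧ wstarSliceIndex X = 0 ∧ 1 ≤ pertIndex X ∧
    max (sliceIndex X) (wstarSliceIndex X) < pertIndex X := by
  have h1 : sliceIndex Z = 0 := by
    apply le_antisymm
    · exact le_of_forall_pos_le_add fun r hr => by rw [zero_add]; exact sliceIndex_le r hr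
    · exact Real.sInf_nonneg fun r hr => hr.1.le
  have h2 : wstarSliceIndex Z = 0 := by
    apply le_antisymm
    · refine le_of_forall_pos_le_add fun r hr => ?_
      rw [zero_add]
      rcases le_total r 1 with h | h
      · exact wstarSliceIndex_le r hr h
      · exact (wstarSliceIndex_le 1 one_pos le_rfl).trans h
    · exact Real.sInf_nonneg fun r hr => hr.1.le
  refine ⟨Z, inferInstance, inferInstance, inferInstance, h1, h2, one_le_pert, ?_⟩
  rw [h1, h2, max_self]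
  exact lt_of_lt_of_le one_pos one_le_pert

end Pool.Agent.Results.MP_2c23da_an.PerturbationIndexLarger
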